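import Pool.Agent.R50.GapThree

/-!
# `K₅`-free graphs with `χ(G) = ζ(G) + 3` for every value of the cochromatic number

The graph consists of the complement `U` of the `(3,5)`-Ramsey graph minus a vertex (12 vertices,
three disjoint `K₄`s, no stable set of size 3) and of a triangle-free graph `R` (a product of a
graph of types with a shift graph) of chromatic number `k - 3` whose vertices of type `T` are
adjacent to the members of the set `T ⊆ U` (if `T` spans no `K₄`); vertices of types `T`, `T'` are
adjacent only if `T ∩ T'` spans no triangle.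
-/

set_option autoImplicit false

namespace Pool.Agent.Results.MP_a38e10_co.GapThree

open Pool.Agent.R50.GapThree

/-- The cochromatic number `ζ(G)`: the least number of parts in a partition of the vertex set into
cliques and independent sets. -/
noncomputable def cochromaticNumber {V : Type} (G : SimpleGraph V) : ℕ :=
  sInf {n : ℕ | ∃ c : V → Fin n, ∀ i, G.IsClique (c ⁻¹' {i}) ∨ G.IsIndepSet (c ⁻¹' {i})}

/-- For every integer `k ≥ 3` there is a finite graph `G` with `ω(G) < 5`, `ζ(G) = k` and
`χ(G) = k + 3`. -/
theorem result : ∀ k : ℕ, 3 ≤ k → ∃ (V : Type) (_ : Fintype V) (G : SimpleGraph V),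
    G.cliqueNum < 5 ∧ cochromaticNumber G = k ∧ G.chromaticNumber = ((k + 3 : ℕ) : ℕ∞) := by
  classical
  intro k hk
  obtain ⟨b, rfl⟩ : ∃ b, k = b + 3 := ⟨k - 3, by omega⟩
  obtain ⟨N, hN⟩ := exists_types b (Fin (b + 5))
  -- fewer colours are a special case
  have hN' : ∀ m, m ≤ b + 5 → ∀ h : Vx b N → Fin m, ∃ i j k : Fin N, i < j ∧ j < k ∧
      ∀ x : Fin b × Finset (Fin 12), h (Sum.inr (x, i, j)) = h (Sum.inr (x, j, k)) := by
    intro m hm h
    obtain ⟨i, j, k, hij, hjk, he⟩ := hN fun v => Fin.castLE hm (h v)
    exact ⟨i, j, k, hij, hjk, fun x => Fin.castLE_injective hm (he x)⟩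
  refine ⟨Vx b N, inferInstance, GG b N, ?_, ?_, ?_⟩
  · obtain ⟨s, hs⟩ := (GG b N).exists_isNClique_cliqueNum
    by_contra hcon
    push Not at hcon
    obtain ⟨t, hts, ht⟩ := Finset.exists_subset_card_eq (show 5 ≤ s.card by rw [hs.card_eq]; exact hcon)
    exact cliqueFree b N t ⟨hs.isClique.subset (by exact_mod_cast hts), ht⟩
  · apply le_antisymm
    · exact Nat.sInf_le (cocolorable b N)
    · have hne : {n : ℕ | ∃ c : Vx b N → Fin n, ∀ i, (GG b N).IsClique (c ⁻¹' {i}) ∨
          (GG b N).IsIndepSet (c ⁻¹' {i})}.Nonempty := ⟨b + 3, cocolorable b N⟩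
      by_contra hcon
      push Not at hcon
      have hmem := Nat.sInf_mem hne
      obtain ⟨n, hneq⟩ : ∃ n, n = sInf {n : ℕ | ∃ c : Vx b N → Fin n, ∀ i,
        (GG b N).IsClique (c ⁻¹' {i}) ∨ (GG b N).IsIndepSet (c ⁻¹' {i})} := ⟨_, rfl⟩
      rw [← hneq] at hmem
      have hn : n ≤ b + 2 := by
        have h1 : n < b + 3 := by rw [hneq]; exact hcon
        omega
      obtain ⟨c, hc⟩ := hmem
      refine not_cocolorable (b := b) (N := N) (hN' (b + 2) (by omega))
        (fun v => Fin.castLE hn (c v)) ?_
      intro i
      by_cases hi : i.val < n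
      · have h1 : (fun v => Fin.castLE hn (c v)) ⁻¹' {i} = c ⁻¹' {⟨i.val, hi⟩} := by
          ext v
          simp only [Set.mem_preimage, Set.mem_singleton_iff]
          constructor
          · intro h
            apply Fin.ext
            show (c v).val = i.val
            rw [← h]
            rfl
          · intro h
            apply Fin.ext
            show (c v).val = i.val
            rw [h]
        rw [h1]
        exact hc _
      · right
        intro v hv
        exfalso
        apply hi
        have h1 : (c v).val = i.val := congrArg Fin.val hv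
        rw [← h1]
        exact (c v).2
  · apply le_antisymm
    · exact (colorable b N).chromaticNumber_le
    · rw [SimpleGraph.le_chromaticNumber_iff_colorable]
      intro n hcol
      by_contra hcon
      push Not at hcon
      have hn : n ≤ b + 5 := by
        have : n < b + 3 + 3 := by exact_mod_cast hcon
        omega
      obtain ⟨C⟩ := hcol.mono hn
      exact not_colorable (by rw [Fintype.card_fin]) hN (fun v => C v)
        (fun v w hvw => C.valid hvw)

end Pool.Agent.Results.MP_a38e10_co.GapThree
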